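import Mathlib

set_option autoImplicit false

namespace Pool.Agent.R586.Eul

open Finset Polynomial

variable {V : Type*} [Fintype V] [DecidableEq V]

/-- The number of descents, with respect to the digraph `D`, of the labelling `σ` of the
vertices: the number of arcs `u → v` with `σ u > σ v`. -/
def des {n : ℕ} (D : V → V → Prop) [DecidableRel D] (σ : V ≃ Fin n) : ℕ :=
  (univ.filter (fun p : V × V => D p.1 p.2 ∧ σ p.2 < σ p.1)).card

/-- The Eulerian polynomial `A_D(t) = ∑_σ t ^ des_D(σ)` of a digraph `D`, the sum being over all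
bijections `σ` from the vertex set onto `{0, …, n-1}`, where `n` is the number of vertices. -/
noncomputable def eulerPoly (D : V → V → Prop) [DecidableRel D] : ℤ[X] :=
  ∑ σ : V ≃ Fin (Fintype.card V), X ^ des D σ

/-- out-degree -/
def outd (D : V → V → Prop) [DecidableRel D] (v : V) : ℕ := (univ.filter (fun u => D v u)).card

/-- in-degree -/
def ind (D : V → V → Prop) [DecidableRel D] (v : V) : ℕ := (univ.filter (fun u => D u v)).card

/-- the restriction of `D` to the vertices other than `a` -/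
def restr (D : V → V → Prop) (a : V) : {b // b ≠ a} → {b // b ≠ a} → Prop := fun x y => D x.1 y.1

instance (D : V → V → Prop) [DecidableRel D] (a : V) : DecidableRel (restr D a) :=
  fun x y => inferInstanceAs (Decidable (D x.1 y.1))

/-- extend a labelling of `V ∖ {a}` by giving `a` the last label -/
def ext (a : V) {n : ℕ} (τ : {b // b ≠ a} ≃ Fin n) : V ≃ Fin (n + 1) where
  toFun b := if h : b = a then Fin.last n else (τ ⟨b, h⟩).castSucc
  invFun i := Fin.lastCases a (fun j => (τ.symm j).1) i
  left_inv b := by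
    by_cases h : b = a
    · simp [h]
    · simp [h]
  right_inv i := by
    refine Fin.lastCases ?_ (fun j => ?_) i
    · simp
    · simp [(τ.symm j).2]

omit [Fintype V] in
lemma ext_self (a : V) {n : ℕ} (τ : {b // b ≠ a} ≃ Fin n) : ext a τ a = Fin.last n := by
  simp [ext]

omit [Fintype V] in
lemma ext_of_ne (a : V) {n : ℕ} (τ : {b // b ≠ a} ≃ Fin n) {b : V} (h : b ≠ a) :
    ext a τ b = (τ ⟨b, h⟩).castSucc := by
  simp [ext, h]

omit [Fintype V] in
lemma ext_injective (a : V) {n : ℕ} : Function.Injective (ext a (n := n)) := by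
  intro τ τ' h
  ext ⟨b, hb⟩
  have := congrArg (fun e : V ≃ Fin (n + 1) => (e b).val) h
  simpa [ext_of_ne a _ hb] using this

omit [Fintype V] in
lemma ext_surj (a : V) {n : ℕ} (σ : V ≃ Fin (n + 1)) (h : σ a = Fin.last n) :
    ∃ τ : {b // b ≠ a} ≃ Fin n, ext a τ = σ := by
  have hne : ∀ b : {b // b ≠ a}, σ b.1 ≠ Fin.last n := by
    intro b hb
    exact b.2 (σ.injective (hb.trans h.symm))
  refine ⟨⟨fun b => (σ b.1).castPred (hne b), fun i => ⟨σ.symm i.castSucc, ?_⟩, ?_, ?_⟩, ?_⟩
  · intro hh
    have : i.castSucc = Fin.last n := by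
      rw [← h, ← hh]; simp
    exact (Fin.castSucc_lt_last i).ne this
  · intro b
    simp
  · intro i
    simp
  · ext b
    by_cases hb : b = a
    · subst hb
      rw [ext_self, h]
    · rw [ext_of_ne a _ hb]
      simp

lemma des_ext (D : V → V → Prop) [DecidableRel D] (hD : ∀ v, ¬ D v v) (a : V) {n : ℕ}
    (τ : {b // b ≠ a} ≃ Fin n) : des D (ext a τ) = outd D a + des (restr D a) τ := by
  classical
  unfold des outd
  rw [← Finset.card_filter_add_card_filter_not (s := univ.filter
    (fun p : V × V => D p.1 p.2 ∧ (ext a τ) p.2 < (ext a τ) p.1)) (fun p : V × V => p.1 = a)]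
  congr 1
  · refine Finset.card_bij' (fun p _ => p.2) (fun u _ => (a, u)) ?_ ?_ ?_ ?_
    · rintro ⟨x, y⟩ hp
      simp only [mem_filter, mem_univ, true_and] at hp ⊢
      rw [← hp.2]; exact hp.1.1
    · intro u hu
      simp only [mem_filter, mem_univ, true_and, and_true] at hu ⊢
      have hua : u ≠ a := by rintro rfl; exact hD _ hu
      refine ⟨hu, ?_⟩
      rw [ext_self, ext_of_ne a τ hua]
      exact Fin.castSucc_lt_last _
    · rintro ⟨x, y⟩ hp
      simp only [mem_filter, mem_univ, true_and] at hp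
      simp [hp.2]
    · intro u _
      rfl
  · symm
    refine Finset.card_bij (fun p _ => (p.1.1, p.2.1)) ?_ ?_ ?_
    · rintro ⟨x, y⟩ hp
      simp only [mem_filter, mem_univ, true_and] at hp ⊢
      refine ⟨⟨hp.1, ?_⟩, x.2⟩
      rw [ext_of_ne a τ x.2, ext_of_ne a τ y.2]
      exact Fin.castSucc_lt_castSucc_iff.2 hp.2
    · rintro ⟨x, y⟩ _ ⟨x', y'⟩ _ h
      simp only [Prod.mk.injEq] at h
      exact Prod.ext (Subtype.ext h.1) (Subtype.ext h.2)
    · rintro ⟨x, y⟩ hp
      simp only [mem_filter, mem_univ, true_and] at hp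
      have hx : x ≠ a := hp.2
      have hy : y ≠ a := by
        rintro rfl
        have h2 := hp.1.2
        rw [ext_self] at h2
        exact absurd h2 (not_lt.2 (Fin.le_last _))
      refine ⟨(⟨x, hx⟩, ⟨y, hy⟩), ?_, rfl⟩
      simp only [mem_filter, mem_univ, true_and]
      refine ⟨hp.1.1, ?_⟩
      have h2 := hp.1.2
      rw [ext_of_ne a τ hx, ext_of_ne a τ hy] at h2
      exact Fin.castSucc_lt_castSucc_iff.1 h2

/-- sums over labellings, split by the vertex with the last label -/
lemma sum_last {M : Type*} [AddCommMonoid M] (a : V) {n : ℕ} (F : (V ≃ Fin (n + 1)) → M) :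
    ∑ σ ∈ univ.filter (fun σ : V ≃ Fin (n + 1) => σ a = Fin.last n), F σ
      = ∑ τ : {b // b ≠ a} ≃ Fin n, F (ext a τ) := by
  classical
  symm
  refine Finset.sum_bij (fun τ _ => ext a τ) ?_ ?_ ?_ ?_
  · intro τ _
    simp [ext_self]
  · intro τ _ τ' _ h
    exact ext_injective a h
  · intro σ hσ
    simp only [mem_filter, mem_univ, true_and] at hσ
    obtain ⟨τ, hτ⟩ := ext_surj a σ hσ
    exact ⟨τ, mem_univ _, hτ⟩
  · intro τ _
    rfl

lemma sum_all {M : Type*} [AddCommMonoid M] {n : ℕ} (F : (V ≃ Fin (n + 1)) → M) :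
    ∑ σ : V ≃ Fin (n + 1), F σ = ∑ a : V, ∑ τ : {b // b ≠ a} ≃ Fin n, F (ext a τ) := by
  classical
  rw [← Finset.sum_fiberwise_of_maps_to (s := univ) (t := (univ : Finset V))
    (g := fun σ : V ≃ Fin (n + 1) => σ.symm (Fin.last n)) (fun _ _ => mem_univ _) F]
  refine Finset.sum_congr rfl fun a _ => ?_
  rw [← sum_last a F]
  refine Finset.sum_congr ?_ fun _ _ => rfl
  ext σ
  simp only [mem_filter, mem_univ, true_and]
  constructor
  · intro h; rw [← h]; simp
  · intro h; rw [← h]; simp

end Pool.Agent.R586.Eul
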