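import Pool.Agent.R537.LR.Stm

/-!
# The cost of a matrix in the reduction for `p = 1` (helper586)
-/

set_option autoImplicit false

namespace Pool.Agent.NPC.R537LR

open Pool.Agent.NPC Pool.Agent.NPC.ER

namespace C1Aux

/-- scaling the rows and the columns does not increase the rank -/
theorem rank_scale {ι κ : Type} [Fintype ι] [Fintype κ] [DecidableEq ι] [DecidableEq κ]
    (u : ι → ℝ) (v : κ → ℝ) (X : Matrix ι κ ℝ) :
    (Matrix.of fun i j => u i * X i j * v j).rank ≤ X.rank := by
  have h : (Matrix.of fun i j => u i * X i j * v j) =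
      Matrix.diagonal u * X * Matrix.diagonal v := by
    ext i j
    simp [Matrix.mul_diagonal, Matrix.diagonal_mul]
  rw [h]
  exact (Matrix.rank_mul_le_left _ _).trans (Matrix.rank_mul_le_right _ _)

theorem rows_pos (n : ℕ) : 0 < (rowsL n).length := by
  simp [rowsL]

theorem cols_pos (n : ℕ) (G : List Gate) (y : ℕ) : 0 < (colsL1 n G y).length := by
  simp [colsL1]

theorem wtR_pos {W : ℕ} (hW : 0 < W) (r : RName) : 0 < wtR W r := by
  unfold wtR
  split_ifs
  · exact hW
  · exact one_pos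

theorem wtC_pos {W Q : ℕ} (hW : 0 < W) (hQ : 0 < Q) (c : Col) : 0 < wtC W Q c := by
  unfold wtC
  split_ifs
  · exact Nat.mul_pos hW hQ
  · exact one_pos
  · exact hQ

variable {n : ℕ} {G : List Gate} {y : ℕ}
  {P : Pt (Fin (rowsL n).length) (Fin (colsL1 n G y).length)}

theorem E_some (hP : Cpt n G y P) {r : Fin (rowsL n).length}
    {c : Fin (colsL1 n G y).length} {q : ℤ}
    (h : ent1 ((rowsL n).get r) ((colsL1 n G y).get c) = some q) :
    P.E r c = some ((q : ℝ) / 8) := by
  rw [hP.E r c, h]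
  rfl

theorem E_none (hP : Cpt n G y P) {r : Fin (rowsL n).length}
    {c : Fin (colsL1 n G y).length}
    (h : ent1 ((rowsL n).get r) ((colsL1 n G y).get c) = none) :
    P.E r c = none := by
  rw [hP.E r c, h]
  rfl

theorem f1_eq (hP : Cpt n G y P) (W Q : ℕ) (r : Fin (rowsL n).length)
    (c : Fin (colsL1 n G y).length) (a b : ℕ) :
    ((f1 W Q ((rowsL n).get r) ((colsL1 n G y).get c) a b : ℚ) : ℝ) =
      8 * P.w W Q r c * P.A (fun a b => (had a b : ℝ)) r c a b := by
  unfold f1 Pt.A
  rw [hP.w, hP.N]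
  cases h : ent1 ((rowsL n).get r) ((colsL1 n G y).get c) with
  | none =>
    rw [E_none hP h]
    push_cast
    ring
  | some q =>
    rw [E_some hP h]
    push_cast
    ring

theorem base_eq (hP : Cpt n G y P) (hS : S_SUM) (W Q m : ℕ) :
    ((8 * (msum W Q (rowsL n) (colsL1 n G y) + 1) * m ^ 2 : ℕ) : ℝ) = 8 * P.base m W Q := by
  unfold msum Pt.base
  rw [hS]
  push_cast
  have h : ∀ (r : Fin (rowsL n).length) (c : Fin (colsL1 n G y).length),
      (if ent1 ((rowsL n).get r) ((colsL1 n G y).get c) = none then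
        ((wtR W ((rowsL n).get r) : ℝ) * (wtC W Q ((colsL1 n G y).get c) : ℝ) *
          (msk ((rowsL n).get r) ((colsL1 n G y).get c) : ℝ)) else 0) =
      (open Classical in if P.E r c = none then P.w W Q r c * P.N r c else 0) := by
    intro r c
    rw [hP.w, hP.N]
    cases h : ent1 ((rowsL n).get r) ((colsL1 n G y).get c) with
    | none =>
      rw [if_pos rfl, if_pos (E_none hP h)]
      push_cast
      ring
    | some q =>
      rw [if_neg (by simp), if_neg (by rw [E_some hP h]; simp)]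
  have h2 : (∑ r : Fin (rowsL n).length, ∑ c : Fin (colsL1 n G y).length,
      (if ent1 ((rowsL n).get r) ((colsL1 n G y).get c) = none then
        ((wtR W ((rowsL n).get r) : ℝ) * (wtC W Q ((colsL1 n G y).get c) : ℝ) *
          (msk ((rowsL n).get r) ((colsL1 n G y).get c) : ℝ)) else 0)) =
      ∑ r, ∑ c, (open Classical in if P.E r c = none then P.w W Q r c * P.N r c else 0) :=
    Finset.sum_congr rfl fun r _ => Finset.sum_congr rfl fun c _ => h r c
  rw [h2]
  ring

theorem cost_eq (hP : Cpt n G y P) (W Q m : ℕ)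
    (X : Fin (rowsL n).length → Fin m → Fin (colsL1 n G y).length → Fin m → ℝ) :
    dist1 (Matrix.of fun (x : Fin (rowsL n).length × Fin m)
        (z : Fin (colsL1 n G y).length × Fin m) =>
        ((f1 W Q ((rowsL n).get x.1) ((colsL1 n G y).get z.1) x.2 z.2 : ℚ) : ℝ))
      (Matrix.of fun x z => 8 * P.w W Q x.1 z.1 * X x.1 x.2 z.1 z.2) =
    8 * P.cost m (fun a b => (had a b : ℝ)) W Q X := by
  unfold dist1 Pt.cost
  rw [Fintype.sum_prod_type, Finset.mul_sum]
  refine Finset.sum_congr rfl fun r _ => ?_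
  rw [Finset.mul_sum]
  simp only [Fintype.sum_prod_type]
  rw [Finset.sum_comm]
  refine Finset.sum_congr rfl fun c _ => ?_
  rw [Finset.mul_sum, Finset.mul_sum]
  refine Finset.sum_congr rfl fun a _ => ?_
  rw [Finset.mul_sum, Finset.mul_sum]
  refine Finset.sum_congr rfl fun b _ => ?_
  simp only [Matrix.of_apply]
  rw [f1_eq hP, ← mul_sub, abs_mul, ← mul_assoc]
  congr 1
  rw [abs_of_nonneg]
  rw [hP.w]
  positivity

theorem main (hP : Cpt n G y P) (hLR : S_LR) (hS : S_SUM) (W Q m : ℕ) (hW : 0 < W) (hQ : 0 < Q)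
    (hm : 0 < m) :
    LRA1 (blk m (f1 W Q) (rowsL n) (colsL1 n G y), 3,
      ((8 * (msum W Q (rowsL n) (colsL1 n G y) + 1) * m ^ 2 : ℕ) : ℚ)) ↔
    ∃ X : Fin (rowsL n).length → Fin m → Fin (colsL1 n G y).length → Fin m → ℝ,
      (Matrix.of fun (x : Fin (rowsL n).length × Fin m) (z : Fin (colsL1 n G y).length × Fin m) =>
        X x.1 x.2 z.1 z.2).rank ≤ 3 ∧
      P.cost m (fun a b => (had a b : ℝ)) W Q X < P.base m W Q := by
  have hN : 0 < 8 * (msum W Q (rowsL n) (colsL1 n G y) + 1) * m ^ 2 := by positivity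
  rw [(hLR RName Col m (f1 W Q) (rowsL n) (colsL1 n G y) 3 _ hm (rows_pos n) hN).2, base_eq hP hS]
  have hwR : ∀ r : Fin (rowsL n).length, (0 : ℝ) < (wtR W ((rowsL n).get r) : ℝ) := fun r => by
    exact_mod_cast wtR_pos hW _
  have hwC : ∀ c : Fin (colsL1 n G y).length,
      (0 : ℝ) < (wtC W Q ((colsL1 n G y).get c) : ℝ) := fun c => by
    exact_mod_cast wtC_pos hW hQ _
  have hw : ∀ r c, P.w W Q r c =
      (wtR W ((rowsL n).get r) : ℝ) * (wtC W Q ((colsL1 n G y).get c) : ℝ) := fun r c => by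
    rw [hP.w]
    push_cast
    ring
  constructor
  · rintro ⟨B, hB, hd⟩
    refine ⟨fun r a c b => B (r, a) (c, b) / (8 * P.w W Q r c), ?_, ?_⟩
    · refine le_trans (le_of_eq_of_le ?_ (rank_scale
        (fun x : Fin (rowsL n).length × Fin m => 1 / (8 * (wtR W ((rowsL n).get x.1) : ℝ)))
        (fun z : Fin (colsL1 n G y).length × Fin m => 1 / (wtC W Q ((colsL1 n G y).get z.1) : ℝ))
        B)) hB
      congr 1
      ext x z
      simp only [Matrix.of_apply]
      rw [hw]
      have h1 := (hwR x.1).ne'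
      have h2 := (hwC z.1).ne'
      field_simp
    · have h := cost_eq hP W Q m (fun r a c b => B (r, a) (c, b) / (8 * P.w W Q r c))
      have h2 : (Matrix.of fun (x : Fin (rowsL n).length × Fin m)
          (z : Fin (colsL1 n G y).length × Fin m) => 8 * P.w W Q x.1 z.1 *
            (B (x.1, x.2) (z.1, z.2) / (8 * P.w W Q x.1 z.1))) = B := by
        ext x z
        simp only [Matrix.of_apply]
        have h3 : P.w W Q x.1 z.1 ≠ 0 := by
          rw [hw]
          have h1 := hwR x.1
          have h2 := hwC z.1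
          positivity
        field_simp
      rw [h2] at h
      rw [h] at hd
      linarith
  · rintro ⟨X, hX, hc⟩
    refine ⟨Matrix.of fun x z => 8 * P.w W Q x.1 z.1 * X x.1 x.2 z.1 z.2, ?_, ?_⟩
    · refine le_trans (le_of_eq_of_le ?_ (rank_scale
        (fun x : Fin (rowsL n).length × Fin m => 8 * (wtR W ((rowsL n).get x.1) : ℝ))
        (fun z : Fin (colsL1 n G y).length × Fin m => (wtC W Q ((colsL1 n G y).get z.1) : ℝ))
        (Matrix.of fun (x : Fin (rowsL n).length × Fin m)
          (z : Fin (colsL1 n G y).length × Fin m) => X x.1 x.2 z.1 z.2))) hX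
      congr 1
      ext x z
      simp only [Matrix.of_apply]
      rw [hw]
      ring
    · rw [cost_eq hP]
      linarith

end C1Aux

theorem t_C1 : S_C1 := by
  intro S P hP hLR hS
  have hm : 0 < m1 S := Nat.pow_pos (by norm_num)
  have hQ : 0 < Q1 S := Nat.pow_pos (by norm_num)
  have hN : 0 < N1 S := Nat.mul_pos (C1Aux.rows_pos _) (C1Aux.cols_pos _ _ _)
  have hW : 0 < W1 S :=
    Nat.mul_pos (Nat.mul_pos (Nat.mul_pos (Nat.pow_pos (by norm_num)) (Nat.pow_pos hN)) hm) hQ
  have h := C1Aux.main hP hLR hS (W1 S) (Q1 S) (m1 S) hW hQ hm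
  unfold F1 R1 C1
  exact h

end Pool.Agent.NPC.R537LR
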