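import Mathlib

/-!
# Rigidity of `(-1,1,t)`-threshold representations

The infinite graph on `ℝ` in which `x ≠ y` are adjacent iff `x + y ∈ [-1,1) ∪ [t,∞)` has no
representation of the same kind with a parameter `s ≠ t`, over any ordered field.
-/

open Filter Topology

namespace Pool.Agent.R586.MultiThr

/-- The rank sum `s` lies in `[-1,1) ∪ [t,∞)`. -/
def E {K : Type*} [Field K] [LinearOrder K] (t s : K) : Prop := (-1 ≤ s ∧ s < 1) ∨ t ≤ s

section Ultra
variable {K : Type*} [Field K] [LinearOrder K] [IsStrictOrderedRing K]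
variable {U : Ultrafilter ℝ} 

lemma ev_pos (hU : (U : Filter ℝ) ≤ 𝓝[>] 0) : ∀ᶠ ε in (U : Filter ℝ), 0 < ε :=
  hU self_mem_nhdsWithin

lemma ev_lt (hU : (U : Filter ℝ) ≤ 𝓝[>] 0) {c : ℝ} (hc : 0 < c) :
    ∀ᶠ ε in (U : Filter ℝ), ε < c :=
  hU (mem_nhdsWithin_of_mem_nhds (Iio_mem_nhds hc))

lemma ev_ne (hU : (U : Filter ℝ) ≤ 𝓝[>] 0) (c : ℝ) : ∀ᶠ ε in (U : Filter ℝ), ε ≠ c := by
  rcases le_or_gt c 0 with h | h
  · filter_upwards [ev_pos hU] with ε hε
    exact (lt_of_le_of_lt h hε).ne'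
  · filter_upwards [ev_lt hU h] with ε hε
    exact hε.ne

lemma ev2 (hU : (U : Filter ℝ) ≤ 𝓝[>] 0) {η : ℝ} (hη : 0 < η) {P : ℝ → ℝ → Prop}
    (hP : ∀ ε δ, 0 < δ → δ < ε → ε < η → P ε δ) :
    ∀ᶠ ε in (U : Filter ℝ), ∀ᶠ δ in (U : Filter ℝ), P ε δ := by
  filter_upwards [ev_pos hU, ev_lt hU hη] with ε h1 h2
  filter_upwards [ev_pos hU, ev_lt hU h1] with δ h3 h4
  exact hP ε δ h3 h4 h2

/-- The lower cut of `a` along the ultrafilter. -/
def L (U : Ultrafilter ℝ) (a : ℝ → K) (u : K) : Prop := ∀ᶠ ε in (U : Filter ℝ), u ≤ a ε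

lemma not_L {a : ℝ → K} {u : K} : ¬ L U a u ↔ ∀ᶠ ε in (U : Filter ℝ), a ε < u := by
  unfold L
  rw [← Ultrafilter.eventually_not]
  simp only [not_le]

lemma L_mono {a : ℝ → K} {u v : K} (h : v ≤ u) (hu : L U a u) : L U a v := by
  filter_upwards [hu] with ε hε
  exact h.trans hε

lemma tie_normal {a b : ℝ → K} {ρ : K}
    (h1 : ∀ᶠ ε in (U : Filter ℝ), ∀ᶠ δ in (U : Filter ℝ), ρ ≤ a ε + b δ)
    (h2 : ∀ᶠ δ in (U : Filter ℝ), ∀ᶠ ε in (U : Filter ℝ), a ε + b δ < ρ) :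
    (∀ u, L U a u ↔ L U (fun δ => ρ - b δ) u) ∧
    (∀ᶠ ε in (U : Filter ℝ), ∀ᶠ ε' in (U : Filter ℝ), a ε' < a ε) ∧
    (∀ᶠ δ in (U : Filter ℝ), ∀ᶠ δ' in (U : Filter ℝ), b δ < b δ') := by
  refine ⟨fun u => ⟨fun hu => ?_, fun hu => ?_⟩, ?_, ?_⟩
  · filter_upwards [h2] with δ hδ
    obtain ⟨ε, h3, h4⟩ := (hδ.and hu).exists
    linarith
  · filter_upwards [h1] with ε hε
    obtain ⟨δ, h3, h4⟩ := (hε.and hu).exists
    linarith
  · filter_upwards [h1] with ε hε
    obtain ⟨δ, h3, h4⟩ := (hε.and h2).exists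
    filter_upwards [h4] with ε' h5
    linarith
  · filter_upwards [h2] with δ hδ
    obtain ⟨ε, h3, h4⟩ := (hδ.and h1).exists
    filter_upwards [h4] with δ' h5
    linarith

lemma tie_rev {a b : ℝ → K} {ρ : K}
    (h1 : ∀ᶠ ε in (U : Filter ℝ), ∀ᶠ δ in (U : Filter ℝ), a ε + b δ < ρ)
    (h2 : ∀ᶠ δ in (U : Filter ℝ), ∀ᶠ ε in (U : Filter ℝ), ρ ≤ a ε + b δ) :
    (∀ u, L U a u ↔ L U (fun δ => ρ - b δ) u) ∧
    (∀ᶠ δ in (U : Filter ℝ), ∀ᶠ δ' in (U : Filter ℝ), b δ' < b δ) := by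
  refine ⟨fun u => ⟨fun hu => ?_, fun hu => ?_⟩, ?_⟩
  · obtain ⟨ε, h3, h4⟩ := (h1.and hu).exists
    filter_upwards [h3] with δ hδ
    linarith
  · obtain ⟨δ, h3, h4⟩ := (h2.and hu).exists
    filter_upwards [h3] with ε hε
    linarith
  · filter_upwards [h2] with δ hδ
    obtain ⟨ε, h3, h4⟩ := (hδ.and h1).exists
    filter_upwards [h4] with δ' h5
    linarith


/-- Eventual membership of `c + a ε` in the edge set only depends on the cut of `a`. -/
lemma evE {s c : K} {a : ℝ → K} :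
    (∀ᶠ ε in (U : Filter ℝ), E s (c + a ε)) ↔
      ((L U a (-1 - c) ∧ ¬ L U a (1 - c)) ∨ L U a (s - c)) := by
  rw [not_L]
  unfold E L
  rw [Ultrafilter.eventually_or, eventually_and]
  have h1 : ∀ ε, (-1 ≤ c + a ε) ↔ (-1 - c ≤ a ε) := fun ε => by
    constructor <;> intro h <;> linarith
  have h2 : ∀ ε, (c + a ε < 1) ↔ (a ε < 1 - c) := fun ε => by
    constructor <;> intro h <;> linarith
  have h3 : ∀ ε, (s ≤ c + a ε) ↔ (s - c ≤ a ε) := fun ε => by
    constructor <;> intro h <;> linarith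
  simp only [h1, h2, h3]

/-- Splitting a doubly eventual edge relation into the two edge regions. -/
lemma splitE {s : K} {f : ℝ → ℝ → K}
    (h : ∀ᶠ x in (U : Filter ℝ), ∀ᶠ y in (U : Filter ℝ), E s (f x y)) :
    (∀ᶠ x in (U : Filter ℝ), ∀ᶠ y in (U : Filter ℝ), (-1 ≤ f x y ∧ f x y < 1)) ∨
    (∀ᶠ x in (U : Filter ℝ), ∀ᶠ y in (U : Filter ℝ), s ≤ f x y) := by
  unfold E at h
  simpa only [Ultrafilter.eventually_or] using h

/-- Splitting a doubly eventual non-edge relation into the two non-edge regions. -/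
lemma splitN {s : K} {f : ℝ → ℝ → K}
    (h : ∀ᶠ x in (U : Filter ℝ), ∀ᶠ y in (U : Filter ℝ), ¬ E s (f x y)) :
    (∀ᶠ x in (U : Filter ℝ), ∀ᶠ y in (U : Filter ℝ), f x y < -1) ∨
    (∀ᶠ x in (U : Filter ℝ), ∀ᶠ y in (U : Filter ℝ), (1 ≤ f x y ∧ f x y < s)) := by
  have h' : ∀ᶠ x in (U : Filter ℝ), ∀ᶠ y in (U : Filter ℝ),
      (f x y < -1) ∨ (1 ≤ f x y ∧ f x y < s) := by
    filter_upwards [h] with x hx
    filter_upwards [hx] with y hy
    unfold E at hy
    push Not at hy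
    rcases lt_or_ge (f x y) (-1) with h1 | h1
    · exact Or.inl h1
    · exact Or.inr ⟨hy.1 h1, hy.2⟩
  simpa only [Ultrafilter.eventually_or] using h'

variable {t : ℝ} {s : K} {φ : ℝ → K}

/-- the hypothesis: `φ` represents the graph of parameter `t` with parameter `s` -/
def Rep (t : ℝ) (s : K) (φ : ℝ → K) : Prop := ∀ x y : ℝ, x ≠ y → (E t (x + y) ↔ E s (φ x + φ y))

lemma adj1 (hU : (U : Filter ℝ) ≤ 𝓝[>] 0) (H : Rep t s φ) {x y η : ℝ} (hη : 0 < η)
    (hE : ∀ z, x + y < z → z < x + y + η → E t z) :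
    ∀ᶠ ε in (U : Filter ℝ), ∀ᶠ δ in (U : Filter ℝ), E s (φ (x + ε) + φ (y - δ)) := by
  have h := ev2 hU hη (P := fun ε δ => 0 < δ ∧ δ < ε ∧ ε < η) (fun ε δ a b c => ⟨a, b, c⟩)
  filter_upwards [h] with ε hε
  filter_upwards [hε, ev_ne hU (y - x - ε)] with δ hδ hne
  refine (H _ _ ?_).1 (hE _ ?_ ?_)
  · intro h'
    apply hne
    linarith
  · linarith [hδ.1, hδ.2.1, hδ.2.2]
  · linarith [hδ.1, hδ.2.1, hδ.2.2]

lemma nadj1 (hU : (U : Filter ℝ) ≤ 𝓝[>] 0) (H : Rep t s φ) {x y η : ℝ} (hη : 0 < η)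
    (hE : ∀ z, x + y < z → z < x + y + η → ¬ E t z) :
    ∀ᶠ ε in (U : Filter ℝ), ∀ᶠ δ in (U : Filter ℝ), ¬ E s (φ (x + ε) + φ (y - δ)) := by
  have h := ev2 hU hη (P := fun ε δ => 0 < δ ∧ δ < ε ∧ ε < η) (fun ε δ a b c => ⟨a, b, c⟩)
  filter_upwards [h] with ε hε
  filter_upwards [hε, ev_ne hU (y - x - ε)] with δ hδ hne
  refine fun h2 => hE _ ?_ ?_ ((H _ _ ?_).2 h2)
  · linarith [hδ.1, hδ.2.1, hδ.2.2]
  · linarith [hδ.1, hδ.2.1, hδ.2.2]
  · intro h'
    apply hne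
    linarith

lemma adj2 (hU : (U : Filter ℝ) ≤ 𝓝[>] 0) (H : Rep t s φ) {x y η : ℝ} (hη : 0 < η)
    (hE : ∀ z, x + y - η < z → z < x + y → E t z) :
    ∀ᶠ δ in (U : Filter ℝ), ∀ᶠ ε in (U : Filter ℝ), E s (φ (x + ε) + φ (y - δ)) := by
  have h := ev2 hU hη (P := fun ε δ => 0 < δ ∧ δ < ε ∧ ε < η) (fun ε δ a b c => ⟨a, b, c⟩)
  filter_upwards [h] with δ hδ'
  filter_upwards [hδ', ev_ne hU (y - δ - x)] with ε hδ hne
  refine (H _ _ ?_).1 (hE _ ?_ ?_)
  · intro h'
    apply hne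
    linarith
  · linarith [hδ.1, hδ.2.1, hδ.2.2]
  · linarith [hδ.1, hδ.2.1, hδ.2.2]

lemma nadj2 (hU : (U : Filter ℝ) ≤ 𝓝[>] 0) (H : Rep t s φ) {x y η : ℝ} (hη : 0 < η)
    (hE : ∀ z, x + y - η < z → z < x + y → ¬ E t z) :
    ∀ᶠ δ in (U : Filter ℝ), ∀ᶠ ε in (U : Filter ℝ), ¬ E s (φ (x + ε) + φ (y - δ)) := by
  have h := ev2 hU hη (P := fun ε δ => 0 < δ ∧ δ < ε ∧ ε < η) (fun ε δ a b c => ⟨a, b, c⟩)
  filter_upwards [h] with δ hδ'
  filter_upwards [hδ', ev_ne hU (y - δ - x)] with ε hδ hne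
  refine fun h2 => hE _ ?_ ?_ ((H _ _ ?_).2 h2)
  · linarith [hδ.1, hδ.2.1, hδ.2.2]
  · linarith [hδ.1, hδ.2.1, hδ.2.2]
  · intro h'
    apply hne
    linarith

/-- A tie at the threshold `-1` or `t` (edge above, non-edge below): either normal with the
threshold `-1`, or normal with the threshold `s`, or normal with both, or reversed with the
threshold `1`. -/
lemma tie_lower (hU : (U : Filter ℝ) ≤ 𝓝[>] 0) (hs : 1 < s) (H : Rep t s φ) {x y η : ℝ}
    (hη : 0 < η)
    (hE : ∀ z, x + y < z → z < x + y + η → E t z)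
    (hN : ∀ z, x + y - η < z → z < x + y → ¬ E t z) :
    (((∀ u, L U (fun ε => φ (x + ε)) u ↔ L U (fun δ => -1 - φ (y - δ)) u) ∨
      (∀ u, L U (fun ε => φ (x + ε)) u ↔ L U (fun δ => s - φ (y - δ)) u)) ∧
      (∀ᶠ ε in (U : Filter ℝ), ∀ᶠ ε' in (U : Filter ℝ), φ (x + ε') < φ (x + ε)) ∧
      (∀ᶠ δ in (U : Filter ℝ), ∀ᶠ δ' in (U : Filter ℝ), φ (y - δ) < φ (y - δ'))) ∨
    ((∀ u, L U (fun ε => φ (x + ε)) u ↔ L U (fun δ => 1 - φ (y - δ)) u) ∧
      (∀ᶠ δ in (U : Filter ℝ), ∀ᶠ δ' in (U : Filter ℝ), φ (y - δ') < φ (y - δ))) := by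
  have h1 := adj1 hU H hη hE
  have h2 := nadj2 hU H hη hN
  rcases splitE h1 with h1 | h1
  · rcases splitN (f := fun δ ε => φ (x + ε) + φ (y - δ)) h2 with h2 | h2
    · left
      have := tie_normal (a := fun ε => φ (x + ε)) (b := fun δ => φ (y - δ)) (ρ := -1)
        (by filter_upwards [h1] with ε h; filter_upwards [h] with δ h; exact h.1) h2
      exact ⟨Or.inl this.1, this.2⟩
    · right
      exact tie_rev (a := fun ε => φ (x + ε)) (b := fun δ => φ (y - δ)) (ρ := 1)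
        (by filter_upwards [h1] with ε h; filter_upwards [h] with δ h; exact h.2)
        (by filter_upwards [h2] with ε h; filter_upwards [h] with δ h; exact h.1)
  · left
    have := tie_normal (a := fun ε => φ (x + ε)) (b := fun δ => φ (y - δ)) (ρ := s) h1
      (by
        rcases splitN (f := fun δ ε => φ (x + ε) + φ (y - δ)) h2 with h2 | h2
        · filter_upwards [h2] with ε h; filter_upwards [h] with δ h; linarith
        · filter_upwards [h2] with ε h; filter_upwards [h] with δ h; exact h.2)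
    exact ⟨Or.inr this.1, this.2⟩

/-- A vertex which is eventually not adjacent to the cluster at `x⁺` and eventually adjacent to
the cluster at `x'⁺`. -/
lemma sep (hU : (U : Filter ℝ) ≤ 𝓝[>] 0) (ht : 1 < t) (H : Rep t s φ) (x : ℝ) :
    ∃ c : K, (¬ ∀ᶠ ε in (U : Filter ℝ), E s (c + φ (x + ε))) ∧
      (∀ᶠ ε in (U : Filter ℝ), E s (c + φ (x + (t + 1) + ε))) := by
  set w : ℝ := (1 + t) / 2 - x with hw
  refine ⟨φ w, ?_, ?_⟩
  · rw [← Ultrafilter.eventually_not]
    filter_upwards [ev_pos hU, ev_lt hU (show 0 < (t - 1) / 2 by linarith),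
      ev_ne hU (w - x)] with ε h1 h2 h3
    intro h4
    have h5 := (H w (x + ε) (by intro h; apply h3; linarith)).2 h4
    unfold E at h5
    rcases h5 with h5 | h5
    · linarith [h5.2]
    · linarith
  · filter_upwards [ev_pos hU, ev_ne hU (w - x - (t + 1))] with ε h1 h3
    refine (H w (x + (t + 1) + ε) (by intro h; apply h3; linarith)).1 (Or.inr ?_)
    linarith


/-- The cut at `x⁺`. -/
def F (U : Ultrafilter ℝ) (φ : ℝ → K) (x : ℝ) (u : K) : Prop := L U (fun ε => φ (x + ε)) u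

/-- The cut of `-φ` at `y⁻`. -/
def B (U : Ultrafilter ℝ) (φ : ℝ → K) (y : ℝ) (u : K) : Prop := L U (fun δ => - φ (y - δ)) u

lemma L_sub (ρ : K) (b : ℝ → K) (u : K) :
    L U (fun δ => ρ - b δ) u ↔ L U (fun δ => - b δ) (u - ρ) := by
  unfold L
  have : ∀ δ, (u ≤ ρ - b δ) ↔ (u - ρ ≤ - b δ) := fun δ => by constructor <;> intro h <;> linarith
  simp only [this]

lemma E_neg_one_le {s z : K} (hs : 1 < s) (h : E s z) : -1 ≤ z := by
  rcases h with h | h
  · exact h.1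
  · linarith

/-- Both ties at `y = -1 - x` are normal; the threshold `-1` goes to `-1` and `t` goes to `s`. -/
lemma step3 (hU : (U : Filter ℝ) ≤ 𝓝[>] 0) (ht : 1 < t) (hs : 1 < s) (H : Rep t s φ) (x : ℝ) :
    (∀ u, F U φ x u ↔ B U φ (-1 - x) (u + 1)) ∧
    (∀ u, F U φ (x + (t + 1)) u ↔ B U φ (-1 - x) (u - s)) ∧
    (∀ᶠ ε in (U : Filter ℝ), ∀ᶠ ε' in (U : Filter ℝ), φ (x + ε') < φ (x + ε)) ∧
    (∀ᶠ δ in (U : Filter ℝ), ∀ᶠ δ' in (U : Filter ℝ), φ (-1 - x - δ) < φ (-1 - x - δ')) := by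
  have tie1 := tie_lower hU hs H (x := x) (y := -1 - x) (η := 1) one_pos
    (fun z h1 h2 => Or.inl ⟨by linarith, by linarith⟩)
    (fun z h1 h2 h3 => by
      rcases h3 with h3 | h3
      · linarith [h3.1]
      · linarith)
  have tie2 := tie_lower hU hs H (x := x + (t + 1)) (y := -1 - x) (η := t - 1) (by linarith)
    (fun z h1 h2 => Or.inr (by linarith))
    (fun z h1 h2 h3 => by
      rcases h3 with h3 | h3
      · linarith [h3.2]
      · linarith)
  obtain ⟨c, hc1, hc2⟩ := sep hU ht H x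
  have heq : ¬ ∀ u, L U (fun ε => φ (x + ε)) u ↔ L U (fun ε => φ (x + (t + 1) + ε)) u := by
    intro h
    apply hc1
    rw [evE] at hc2 ⊢
    rw [h, h, h]
    exact hc2
  have hord : ∀ {P Q : Prop}, 
      (∀ᶠ δ in (U : Filter ℝ), ∀ᶠ δ' in (U : Filter ℝ), φ (-1 - x - δ) < φ (-1 - x - δ')) →
      (∀ᶠ δ in (U : Filter ℝ), ∀ᶠ δ' in (U : Filter ℝ), φ (-1 - x - δ') < φ (-1 - x - δ)) →
      False := by
    intro _ _ h1 h2
    obtain ⟨δ, h3, h4⟩ := (h1.and h2).exists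
    obtain ⟨δ', h5, h6⟩ := (h3.and h4).exists
    exact lt_asymm h5 h6
  rcases tie1 with ⟨c1, o1, o1'⟩ | ⟨c1, o1'⟩
  · rcases tie2 with ⟨c2, o2, o2'⟩ | ⟨c2, o2'⟩
    · refine ⟨?_, ?_, o1, o1'⟩ <;>
      rcases c1 with c1 | c1 <;> rcases c2 with c2 | c2
      · exact (heq fun u => (c1 u).trans (c2 u).symm).elim
      · intro u
        have := c1 u
        rw [L_sub] at this
        unfold F B
        rw [this, sub_neg_eq_add]
      · exfalso
        apply hc1
        rw [evE]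
        right
        rw [c1, L_sub]
        have h1 : L U (fun ε => φ (x + (t + 1) + ε)) (-1 - c) := by
          filter_upwards [hc2] with ε hε
          have := E_neg_one_le hs hε
          linarith
        rw [c2, L_sub] at h1
        convert h1 using 1
        ring
      · exact (heq fun u => (c1 u).trans (c2 u).symm).elim
      · exact (heq fun u => (c1 u).trans (c2 u).symm).elim
      · intro u
        have := c2 u
        rw [L_sub] at this
        exact this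
      · exfalso
        apply hc1
        rw [evE]
        right
        rw [c1, L_sub]
        have h1 : L U (fun ε => φ (x + (t + 1) + ε)) (-1 - c) := by
          filter_upwards [hc2] with ε hε
          have := E_neg_one_le hs hε
          linarith
        rw [c2, L_sub] at h1
        convert h1 using 1
        ring
      · exact (heq fun u => (c1 u).trans (c2 u).symm).elim
    · exact (hord (P := True) (Q := True) o1' o2').elim
  · rcases tie2 with ⟨c2, o2, o2'⟩ | ⟨c2, o2'⟩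
    · exact (hord (P := True) (Q := True) o2' o1').elim
    · exact (heq fun u => (c1 u).trans (c2 u).symm).elim

/-- The tie at the threshold `1` is normal; the cluster has bounded spread. -/
lemma step2 (hU : (U : Filter ℝ) ≤ 𝓝[>] 0) (ht : 1 < t) (hs : 1 < s) (H : Rep t s φ) (x : ℝ) :
    (∀ u, F U φ x u ↔ B U φ (1 - x) (u - 1)) ∧ ∃ u, F U φ x u ∧ ¬ F U φ x (u + (s + 1)) := by
  have h1 := nadj1 hU H (x := x) (y := 1 - x) (η := t - 1) (by linarith)
    (fun z h1 h2 h3 => by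
      rcases h3 with h3 | h3
      · linarith [h3.2]
      · linarith)
  have h2 := adj2 hU H (x := x) (y := 1 - x) (η := 1) one_pos
    (fun z h1 h2 => Or.inl ⟨by linarith, by linarith⟩)
  have up := (step3 hU ht hs H x).2.2.1
  have dn := (step3 hU ht hs H (x - 2)).2.2.2
  have e : (-1 - (x - 2) : ℝ) = 1 - x := by ring
  rw [e] at dn
  have hord : 
      (∀ᶠ δ in (U : Filter ℝ), ∀ᶠ δ' in (U : Filter ℝ), φ (1 - x - δ') < φ (1 - x - δ)) →
      False := by
    intro h2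
    obtain ⟨δ, h3, h4⟩ := (dn.and h2).exists
    obtain ⟨δ', h5, h6⟩ := (h3.and h4).exists
    exact lt_asymm h5 h6
  rcases splitN h1 with h1 | h1
  · exfalso
    apply hord
    refine (tie_rev (a := fun ε => φ (x + ε)) (b := fun δ => φ (1 - x - δ)) (ρ := -1) h1 ?_).2
    filter_upwards [h2] with δ h
    filter_upwards [h] with ε h
    exact E_neg_one_le hs h
  · rcases splitE (f := fun δ ε => φ (x + ε) + φ (1 - x - δ)) h2 with h2 | h2
    · constructor
      · have := (tie_normal (a := fun ε => φ (x + ε)) (b := fun δ => φ (1 - x - δ)) (ρ := 1)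
          (by filter_upwards [h1] with ε h; filter_upwards [h] with δ h; exact h.1)
          (by filter_upwards [h2] with ε h; filter_upwards [h] with δ h; exact h.2)).1
        intro u
        have h3 := this u
        rw [L_sub] at h3
        exact h3
      · obtain ⟨ε, h3, h4⟩ := (h1.and up).exists
        obtain ⟨δ, h5, h6⟩ := (h3.and h2).exists
        refine ⟨φ (x + ε) - (s + 1), ?_, ?_⟩
        · filter_upwards [h6] with ε' h7
          linarith [h7.1, h5.2]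
        · unfold F
          rw [not_L]
          filter_upwards [h4] with ε' h7
          linarith
    · exfalso
      apply hord
      exact (tie_rev (a := fun ε => φ (x + ε)) (b := fun δ => φ (1 - x - δ)) (ρ := s)
        (by filter_upwards [h1] with ε h; filter_upwards [h] with δ h; exact h.2) h2).2

lemma F_mono_u {x : ℝ} {u v : K} (h : v ≤ u) (hu : F U φ x u) : F U φ x v := L_mono h hu

lemma shift_two (hU : (U : Filter ℝ) ≤ 𝓝[>] 0) (ht : 1 < t) (hs : 1 < s) (H : Rep t s φ)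
    (x : ℝ) (u : K) : F U φ (x + 2) (u + 2) ↔ F U φ x u := by
  rw [(step2 hU ht hs H (x + 2)).1, (step3 hU ht hs H x).1]
  have e1 : (1 - (x + 2) : ℝ) = -1 - x := by ring
  have e2 : (u + 2 - 1 : K) = u + 1 := by ring
  rw [e1, e2]

lemma shift_T (hU : (U : Filter ℝ) ≤ 𝓝[>] 0) (ht : 1 < t) (hs : 1 < s) (H : Rep t s φ)
    (x : ℝ) (u : K) : F U φ (x + (t + 1)) (u + (s + 1)) ↔ F U φ x u := by
  rw [(step3 hU ht hs H x).2.1, (step3 hU ht hs H x).1]
  have e2 : (u + (s + 1) - s : K) = u + 1 := by ring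
  rw [e2]

lemma mono_loc (hU : (U : Filter ℝ) ≤ 𝓝[>] 0) (ht : 1 < t) (hs : 1 < s) (H : Rep t s φ)
    {p q : ℝ} (h1 : p < q) (h2 : q < p + (t - 1)) {u : K} (hu : F U φ p u) : F U φ q u := by
  have h3 : F U φ (p + (t - 1)) (u + (s - 1)) := by
    rw [← shift_two hU ht hs H]
    have e1 : p + (t - 1) + 2 = p + (t + 1) := by ring
    have e2 : u + (s - 1) + 2 = u + (s + 1) := by ring
    rw [e1, e2, shift_T hU ht hs H]
    exact hu
  rw [(step2 hU ht hs H q).1]
  have h4 := nadj1 hU H (x := p + (t - 1)) (y := 1 - q) (η := q - p) (by linarith)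
    (fun z h5 h6 h7 => by
      rcases h7 with h7 | h7
      · linarith [h7.2]
      · linarith)
  obtain ⟨ε, h5, h6⟩ := (h4.and h3).exists
  filter_upwards [h5] with δ h7
  have h8 : φ (p + (t - 1) + ε) + φ (1 - q - δ) < s := by
    by_contra h9
    exact h7 (Or.inr (not_lt.1 h9))
  linarith

lemma mono (hU : (U : Filter ℝ) ≤ 𝓝[>] 0) (ht : 1 < t) (hs : 1 < s) (H : Rep t s φ)
    {p q : ℝ} (h1 : p ≤ q) {u : K} (hu : F U φ p u) : F U φ q u := by
  have key : ∀ n : ℕ, ∀ q, p ≤ q → q ≤ p + n * ((t - 1) / 2) → F U φ q u := by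
    intro n
    induction n with
    | zero =>
      intro q h1 h2
      have : q = p := le_antisymm (by simpa using h2) h1
      rw [this]; exact hu
    | succ n ih =>
      intro q h1 h2
      push_cast at h2
      rcases le_or_gt q (p + n * ((t - 1) / 2)) with h | h
      · exact ih q h1 h
      · have h3 := ih (p + n * ((t - 1) / 2)) (by
          have : (0:ℝ) ≤ n * ((t - 1) / 2) := by
            apply mul_nonneg (Nat.cast_nonneg n); linarith
          linarith) le_rfl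
        exact mono_loc hU ht hs H h (by nlinarith) h3
  obtain ⟨n, hn⟩ := exists_nat_ge ((q - p) / ((t - 1) / 2))
  refine key n q h1 ?_
  rw [div_le_iff₀ (by linarith)] at hn
  linarith

lemma shift_two_n (hU : (U : Filter ℝ) ≤ 𝓝[>] 0) (ht : 1 < t) (hs : 1 < s) (H : Rep t s φ)
    (n : ℕ) (u : K) : F U φ (n * 2) (u + n * 2) ↔ F U φ 0 u := by
  induction n with
  | zero => simp
  | succ n ih =>
    rw [← ih, ← shift_two hU ht hs H (n * 2)]
    have e1 : ((n + 1 : ℕ) : ℝ) * 2 = n * 2 + 2 := by push_cast; ring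
    have e2 : u + ((n + 1 : ℕ) : K) * 2 = u + n * 2 + 2 := by push_cast; ring
    rw [e1, e2]

lemma shift_T_n (hU : (U : Filter ℝ) ≤ 𝓝[>] 0) (ht : 1 < t) (hs : 1 < s) (H : Rep t s φ)
    (n : ℕ) (u : K) : F U φ (n * (t + 1)) (u + n * (s + 1)) ↔ F U φ 0 u := by
  induction n with
  | zero => simp
  | succ n ih =>
    rw [← ih, ← shift_T hU ht hs H (n * (t + 1))]
    have e1 : ((n + 1 : ℕ) : ℝ) * (t + 1) = n * (t + 1) + (t + 1) := by push_cast; ring
    have e2 : u + ((n + 1 : ℕ) : K) * (s + 1) = u + n * (s + 1) + (s + 1) := by push_cast; ring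
    rw [e1, e2]

/-- There is no invariance of the cut at `0⁺` under a shift by a non-infinitesimal amount. -/
lemma no_shift (hU : (U : Filter ℝ) ≤ 𝓝[>] 0) (ht : 1 < t) (hs : 1 < s) (H : Rep t s φ)
    {c : K} {j : ℕ} (hj : s + 1 ≤ j * c) (h : ∀ u, F U φ 0 u → F U φ 0 (u + c)) : False := by
  obtain ⟨u, h1, h2⟩ := (step2 hU ht hs H 0).2
  have key : ∀ n : ℕ, F U φ 0 (u + n * c) := by
    intro n
    induction n with
    | zero => simpa using h1
    | succ n ih =>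
      have := h _ ih
      convert this using 1
      push_cast; ring
  exact h2 (F_mono_u (by linarith) (key j))

theorem ratio1 (hU : (U : Filter ℝ) ≤ 𝓝[>] 0) (ht : 1 < t) (hs : 1 < s) (H : Rep t s φ)
    {m n j : ℕ} (h : (m : ℝ) * (t + 1) ≤ n * 2)
    (hj : s + 1 ≤ (j : K) * (m * (s + 1) - n * 2)) : False := by
  refine no_shift hU ht hs H hj fun u hu => ?_
  rw [← shift_two_n hU ht hs H n]
  have := (shift_T_n hU ht hs H m u).2 hu
  have := mono hU ht hs H h this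
  convert this using 1
  ring

theorem ratio2 (hU : (U : Filter ℝ) ≤ 𝓝[>] 0) (ht : 1 < t) (hs : 1 < s) (H : Rep t s φ)
    {m n j : ℕ} (h : (n : ℝ) * 2 ≤ m * (t + 1))
    (hj : s + 1 ≤ (j : K) * (n * 2 - m * (s + 1))) : False := by
  refine no_shift hU ht hs H hj fun u hu => ?_
  rw [← shift_T_n hU ht hs H m]
  have := (shift_two_n hU ht hs H n u).2 hu
  have := mono hU ht hs H h this
  convert this using 1
  ring

end Ultra

end Pool.Agent.R586.MultiThr
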